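import Pool.Agent.Y920.QB.Core
import Pool.Agent.Y941.QB.UD
import Pool.Agent.Y891.QB.Cut

set_option autoImplicit false

/-! # MP_d26ff6_al: finite quaternionic structures whose value groups have bounded index

`V(a)` denotes the group of the `b` with `q(a,b) = 0`. -/

namespace Pool.Agent.Results.MP_d26ff6_al.LargeValueGroups

open Pool.Agent.H315R3.ETC Pool.Agent.Y920.QB

/-- the quaternions of `S` -/
def quaternions (S : QData) : Set S.Q := {t | ∃ a b, S.q a b = t}

theorem result :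
    -- the structure theorem
    (∀ S : QData, IsQuat S → Finite S.G → ∀ N : ℕ, (∀ a : S.G, idx S a ≤ N) →
      ∃ (n : ℕ) (L : Fin n → Subgroup S.G) (B : Subgroup S.G)
        (lam : Fin n → S.G → S.G → ZMod 2) (ψ : (Fin n → ZMod 2) → S.Q),
        2 ^ n ≤ N ∧ Glue S n L B lam ψ ∧ Nat.card B ≤ 2 ^ (16 * N ^ 4) * radCard S) ∧
    -- a small substructure decides
    (∀ S : QData, IsQuat S → Finite S.G → ∀ N : ℕ, (∀ a : S.G, idx S a ≤ N) →
      ∃ (T : QData) (ι : T.G →* S.G), IsQuat T ∧ Finite T.G ∧ Emb T S ι ∧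
        Nat.card T.G ≤ 2 * N ^ 2 * 2 ^ (16 * N ^ 4) ∧ (Elem S ↔ Elem T)) ∧
    -- the conjecture for value groups of bounded index is a question on finitely many structures
    (∀ N : ℕ,
      (∀ T : QData, IsQuat T → Finite T.G → Nat.card T.G ≤ 2 * N ^ 2 * 2 ^ (16 * N ^ 4) →
        (∀ a : T.G, idx T a ≤ N) → Elem T) →
      ∀ S : QData, IsQuat S → Finite S.G → (∀ a : S.G, idx S a ≤ N) → Elem S) ∧
    -- the same for a bounded number of quaternions
    (∀ N : ℕ,
      (∀ T : QData, IsQuat T → Finite T.G → Nat.card T.G ≤ 2 * N ^ 2 * 2 ^ (16 * N ^ 4) →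
        (quaternions T).ncard ≤ N → Elem T) →
      ∀ S : QData, IsQuat S → Finite S.G → (quaternions S).ncard ≤ N → Elem S) ∧
    -- minimal counterexamples have a value group of large index
    (∀ S : QData, IsQuat S → Finite S.G → ¬ Elem S →
      (∀ T : QData, IsQuat T → Finite T.G → Nat.card T.G < Nat.card S.G → Elem T) →
      ∃ a : S.G, Nat.card S.G ≤ 2 * idx S a ^ 2 * 2 ^ (16 * idx S a ^ 4)) := by
  have sub : ∀ S : QData, IsQuat S → Finite S.G → ∀ N : ℕ, (∀ a : S.G, idx S a ≤ N) →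
      ∃ (T : QData) (ι : T.G →* S.G), IsQuat T ∧ Finite T.G ∧ Emb T S ι ∧
        Nat.card T.G ≤ 2 * N ^ 2 * 2 ^ (16 * N ^ 4) ∧ (Elem S ↔ Elem T) := by
    intro S h hf N hN
    exact substructure h Pool.Agent.Y891.QB.t_CUT Pool.Agent.Y941.QB.t_UD hN
  refine ⟨fun S h hf N hN => structure_thm h hN, sub, ?_, ?_, ?_⟩
  · intro N hT S h hf hN
    obtain ⟨T, ι, hTq, hTf, hE, hc, hiff⟩ := sub S h hf N hN
    exact hiff.2 (hT T hTq hTf hc fun a => (idx_emb hE a).trans (hN _))
  · intro N hT S h hf hN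
    obtain ⟨T, ι, hTq, hTf, hE, hc, hiff⟩ := sub S h hf N
      fun a => (idx_le_quat a).trans hN
    exact hiff.2 (hT T hTq hTf hc ((quat_emb hE).trans hN))
  · intro S h hf hE hmin
    obtain ⟨a, ha⟩ := Finite.exists_max (fun a : S.G => idx S a)
    refine ⟨a, ?_⟩
    by_contra hcon
    push Not at hcon
    obtain ⟨T, ι, hTq, hTf, -, hc, hiff⟩ := sub S h hf _ ha
    exact hE (hiff.2 (hmin T hTq hTf (lt_of_le_of_lt hc hcon)))

end Pool.Agent.Results.MP_d26ff6_al.LargeValueGroups
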