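import Mathlib
import Pool.Agent.Y920.ETC.Iter
import Pool.Agent.Y43.ET.GL

set_option autoImplicit false

/-! # MP_d26ff6_al: finite quaternionic structures with small value groups

`V(a)` denotes the group of the `b` with `q(a,b) = 0`. -/

namespace Pool.Agent.Results.MP_d26ff6_al.SmallValueGroups

open Pool.Agent.H315R3.ETC Pool.Agent.Y920.ETC

/-- the order of the value group `V(a)` -/
noncomputable def vsize (S : QData) (a : S.G) : ℕ := {b : S.G | S.q a b = S.zero}.ncard

theorem result :
    -- recognition of group extensions by the size of the value groups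
    (∀ S : QData, IsQuat S → Finite S.G → 1 < Nat.card S.G →
      (∀ a : S.G, a ≠ 1 → 4 * vsize S a ^ 4 < Nat.card S.G) →
      ∃ T : QData, IsQuat T ∧ 2 * Nat.card T.G = Nat.card S.G ∧ Iso (ext T) S) ∧
    -- the elements which are not birigid form, with `-1`, a small subgroup
    (∀ S : QData, IsQuat S → Finite S.G → ∀ N : ℕ, 1 ≤ N →
      (∀ a : S.G, a ≠ 1 → vsize S a ≤ N) →
      ∃ B : Subgroup S.G, Nat.card B ≤ 4 * N ^ 4 ∧ S.neg ∈ B ∧
        ∀ a : S.G, a ≠ 1 → a ≠ S.neg → (a ∉ B ↔
          ({b : S.G | S.q a b = S.zero} = {1, S.neg * a} ∧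
            {b : S.G | S.q (S.neg * a) b = S.zero} = {1, a}))) ∧
    -- iterated group extensions of small structures
    (∀ S : QData, IsQuat S → Finite S.G → ∀ N : ℕ, 1 ≤ N →
      (∀ a : S.G, a ≠ 1 → vsize S a ≤ N) →
      ∃ (T : QData) (k : ℕ), IsQuat T ∧ Finite T.G ∧ Nat.card T.G ≤ 4 * N ^ 4 ∧
        2 ^ k * Nat.card T.G = Nat.card S.G ∧ (∀ a : T.G, a ≠ 1 → vsize T a ≤ N) ∧
        Iso (ext^[k] T) S) ∧
    -- the conjecture for value groups of bounded order is a question on finitely many structures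
    (∀ N : ℕ, 1 ≤ N →
      (∀ T : QData, IsQuat T → Finite T.G → Nat.card T.G ≤ 4 * N ^ 4 →
        (∀ a : T.G, a ≠ 1 → vsize T a ≤ N) → Elem T) →
      ∀ S : QData, IsQuat S → Finite S.G → (∀ a : S.G, a ≠ 1 → vsize S a ≤ N) → Elem S) ∧
    -- minimal counterexamples have a large value group
    (∀ S : QData, IsQuat S → Finite S.G → ¬ Elem S →
      (∀ T : QData, IsQuat T → Finite T.G → Nat.card T.G < Nat.card S.G → Elem T) →
      ∃ a : S.G, a ≠ 1 ∧ Nat.card S.G ≤ 4 * vsize S a ^ 4) := by
  have gl := Pool.Agent.Y43.ET.t_GL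
  have hext : ∀ S : QData, IsQuat S → Finite S.G → 1 < Nat.card S.G →
      (∀ a : S.G, a ≠ 1 → 4 * vsize S a ^ 4 < Nat.card S.G) →
      ∃ T : QData, IsQuat T ∧ 2 * Nat.card T.G = Nat.card S.G ∧ Iso (ext T) S := by
    intro S h hf h1 hs
    obtain ⟨b, hb⟩ := exists_bi2 h gl h1 hs
    obtain ⟨T, hT, -, hc, hi, -⟩ := bi_ext h hb
    exact ⟨T, hT, hc, hi⟩
  have hiter : ∀ S : QData, IsQuat S → Finite S.G → ∀ N : ℕ, 1 ≤ N →
      (∀ a : S.G, a ≠ 1 → vsize S a ≤ N) →
      ∃ (T : QData) (k : ℕ), IsQuat T ∧ Finite T.G ∧ Nat.card T.G ≤ 4 * N ^ 4 ∧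
        2 ^ k * Nat.card T.G = Nat.card S.G ∧ (∀ a : T.G, a ≠ 1 → vsize T a ≤ N) ∧
        Iso (ext^[k] T) S := by
    intro S h hf N hN1 hN
    exact iter gl hN1 _ S h hf le_rfl hN
  refine ⟨hext, ?_, hiter, ?_, ?_⟩
  · intro S h hf N hN1 hN
    obtain ⟨B, hB⟩ := Pool.Agent.Y67.ET.t_BASIC S h
    refine ⟨B, card_basic2 h gl B hB hN1 hN, (hB _).2 fun hb => hb.2.1 rfl, ?_⟩
    intro a ha1 ha2
    rw [hB, not_not]
    constructor
    · rintro ⟨-, -, h3, h4⟩
      refine ⟨?_, ?_⟩
      · ext b
        constructor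
        · intro hb
          exact h3 b hb
        · rintro (rfl | rfl)
          · exact q_one h a
          · exact h.qs1 a
      · ext b
        constructor
        · intro hb
          rcases h4 b hb with h5 | h5
          · exact Or.inl h5
          · right
            rw [neg_neg_mul h] at h5
            exact h5
        · rintro (rfl | rfl)
          · exact q_one h _
          · show S.q (S.neg * b) b = S.zero
            rw [h.qs2]
            exact h.qs1 b
    · rintro ⟨h3, h4⟩
      refine ⟨ha1, ha2, ?_, ?_⟩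
      · intro e he
        have : e ∈ ({1, S.neg * a} : Set S.G) := by rw [← h3]; exact he
        exact this
      · intro e he
        have : e ∈ ({1, a} : Set S.G) := by rw [← h4]; exact he
        rw [neg_neg_mul h]
        exact this
  · intro N hN1 hT S h hf hN
    obtain ⟨T, k, hTq, hTf, hTc, -, hTN, hTi⟩ := hiter S h hf N hN1 hN
    have h1 : Elem T := hT T hTq hTf hTc hTN
    have h2 : ∀ k : ℕ, Elem (ext^[k] T) := by
      intro k
      induction k with
      | zero => exact h1
      | succ k ih =>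
        rw [Function.iterate_succ_apply']
        exact Elem.ext _ ih
    exact Elem.iso _ _ (h2 k) hTi
  · intro S h hf hE hmin
    by_contra hcon
    push Not at hcon
    apply hE
    have hpos : 0 < Nat.card S.G := Nat.card_pos
    by_cases h1 : 1 < Nat.card S.G
    · obtain ⟨T, hT, hc, hi⟩ := hext S h hf h1 hcon
      have hTf : Finite T.G := Nat.finite_of_card_ne_zero (by omega)
      exact Elem.iso _ _ (Elem.ext _ (hmin T hT hTf (by omega))) hi
    · have hs : Subsingleton S.G := (Nat.card_eq_one_iff_unique.1 (by omega)).1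
      have h0 : ∀ a b : S.G, S.q a b = S.zero := by
        intro a b
        rw [Subsingleton.elim b 1]
        exact q_one h a
      refine Elem.iso L0 S Elem.l0 ?_
      refine ⟨⟨⟨fun _ => 1, fun _ => (), fun _ => rfl, fun a => Subsingleton.elim _ _⟩,
        fun _ _ => (mul_one _).symm⟩, Subsingleton.elim _ _, fun a b c d => ?_⟩
      rw [h0, h0]
      exact ⟨fun _ => rfl, fun _ => rfl⟩

end Pool.Agent.Results.MP_d26ff6_al.SmallValueGroups
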